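import Pool.Agent.Helper45.CF.GoalsC

/-!
# Packet CF2-CPT (MP_d97caa_an): the rotated connecting maps are compatible with the inclusion
-/

set_option autoImplicit false

open scoped ComplexOrder ZeroAtInfty Topology ComplexConjugate NNReal
open TopologicalSpace

namespace Pool.Agent.Helper63.CF2.CPT

open Pool.Agent.Helper34.CAR Pool.Agent.Helper39.CR Pool.Agent.Helper45.CF

theorem inc_theta {B B' : Type} [CStarAlgebra B] [CStarAlgebra B'] (P : Pr B B') (b : B) :
    P.inc (P.θ b) = P.θ' (P.inc b) := P.comm b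

theorem inc_omega {B B' : Type} [CStarAlgebra B] [CStarAlgebra B'] (P : Pr B B') (b : B) :
    P.ω b = P.ω' (P.inc b) := rfl

/-- entries of a standard step under the inclusion. -/
theorem kst_inc {B B' J : Type} [CStarAlgebra B] [CStarAlgebra B'] [Fintype J] [DecidableEq J]
    (P : Pr B B') (t : B' →⋆ₐ[ℂ] Mt J ℂ) (b : B) (p q : (Fin 2 ⊕ Unit) ⊕ J) :
    P.inc (kst P.θ P.ω (t.comp P.inc) b p q) = kst P.θ' P.ω' t (P.inc b) p q := by
  rcases p with (x | x) | x <;> rcases q with (y | y) | y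
  · show P.inc (Sys2.Ktriv P.θ b x y) = Sys2.Ktriv P.θ' (P.inc b) x y
    rw [Sys2.Ktriv_apply, Sys2.Ktriv_apply]
    split_ifs with h h1
    · exact P.comm b
    · rfl
    · exact map_zero _
  · exact map_zero _
  · exact map_zero _
  · exact map_zero _
  · show P.inc (algebraMap ℂ B (P.ω b)) = algebraMap ℂ B' (P.ω' (P.inc b))
    rw [AlgHomClass.commutes, inc_omega]
  · exact map_zero _
  · exact map_zero _
  · exact map_zero _
  · show P.inc (algebraMap ℂ B (t (P.inc b) x y)) = algebraMap ℂ B' (t (P.inc b) x y)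
    rw [AlgHomClass.commutes]

theorem rotE_inc {B B' J : Type} [CStarAlgebra B] [CStarAlgebra B'] [Fintype J] [DecidableEq J]
    (P : Pr B B') (t : B' →⋆ₐ[ℂ] Mt J ℂ) (c1 c2 : (Fin 2 ⊕ Unit) ⊕ J) (y : Sphere2) (b : B)
    (p q : (Fin 2 ⊕ Unit) ⊕ J) :
    P.inc (rotE P.ω c1 c2 (kst P.θ P.ω (t.comp P.inc)) y b p q) =
      rotE P.ω' c1 c2 (kst P.θ' P.ω' t) y (P.inc b) p q := by
  unfold rotE
  split_ifs with h
  · rw [map_add, map_smul, map_smul, AlgHomClass.commutes, inc_omega]
  · rw [map_add, map_smul, map_smul, AlgHomClass.commutes, inc_omega]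
  · exact kst_inc P t b p q

/-- **CPT.** -/
theorem t : S_CPT := by
  intro B B' _ _ P d i κh κh' h h'
  constructor
  · intro a y
    refine Matrix.ext fun p q => ?_
    have e1 : (Mt.map P.inc (κh a y : Mt (d.S (i + 1)) B)) p q = P.inc (κh a y p q) := rfl
    have e2 := h a y p q
    have e3 := h' (Mt.map P.inc a) y p q
    rw [e1, e2]
    refine (rotE_inc P (d.t i) (i1 (d.J i)) (i2 (d.J i)) y (a (d.e i p).1 (d.e i q).1)
      (d.e i p).2 (d.e i q).2).trans ?_
    exact e3.symm
  · intro a y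
    refine Matrix.ext fun p q => ?_
    exact h' a y p q

end Pool.Agent.Helper63.CF2.CPT
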